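import Pool.Agent.T9h45.BC.Main
import Pool.Agent.Results.MP_c8786f_co.CoveredByBalls

set_option autoImplicit false

/-!
# Nowhere-zero 5-flows in graphs with few circuits outside some balls (MP_c8786f_co)

Let `G` be a bridgeless multigraph, let `c_1, ..., c_k` be vertices and `r_1, ..., r_k`, `b` natural
numbers with

`S := ∑ (2 ^ (r_i + 1) - 1) ≤ 31` and `k + 3 S + 2 b ≤ 127`.

Suppose that every nonempty set `A` of vertices outside the balls `B(c_i, r_i)` spans at most
`|A| + b - 1` edges.  Then `G` has a nowhere-zero 5-flow, and the characteristic polynomial of its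
bond matroid is positive at all integers `q ≥ 5`.  The order, the degrees, the connectivity, the
diameter and the number of circuits of `G` are arbitrary.

The condition says for `b = 0` that all circuits meet one of the balls, for `b = 1` that every
component of the graph without the balls has at most one circuit (the number of the components and
circuits is then arbitrary), and for `b ≥ 1` it holds if the cyclomatic number of the graph without
the balls is at most `b`.

Special cases: all circuits, except at most sixteen independent ones, or except one in each component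
of the rest, meet the ball of radius four about a vertex (`oneBall`); or they meet the closed
neighbourhood of a set of at most ten vertices (`neighbourhood`, with up to thirteen exceptions).

For `r_i = 0` (`k` vertices whose deletion leaves a graph with cyclomatic number at most `b`,
`2 k + b ≤ 63`) this is the starting file `FewCircuits`; the starting file `CoveredByBalls` needs
that the balls contain all vertices of degree at least three.

Proof.  The class is closed under contractions (not under deletions).  Let `G` be a counterexample
with as few edges as possible.  Circuits with at most eleven edges can be contracted (library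
`Y335/FL`), and so can one of two edges which form a cut; hence (library `Y358/IN`) `G` has girth
at least twelve, all degrees are at least three (apart from isolated vertices), and there are
`n ≥ 126` vertices which are not isolated.  Let `R` be the set of those outside the balls, and let
`L_i` be the set of the vertices at distance `r_i + 1 ≤ 5` from `c_i`.  A vertex outside
`B(c_i, r_i)` has at most one neighbour in this ball, and if it has one it is in `L_i`.  So
`3 |R| ≤ 2 (|R| + b - 1) + ∑ |L_i|`, and `n + 2 ≤ 2 b + ∑ (|B(c_i, r_i)| + |L_i|)`.  But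
`B(c_i, r_i) ∪ L_i` is a ball of radius `r_i + 1` and has at most
`1 + (2 ^ (r_i + 1) - 1) (n - 33) / 31` elements (library `R129/Ball`).
-/

namespace Pool.Agent.Results.MP_c8786f_co.BallsAndCircuits

open Pool.Agent.TH497.PW Pool.Agent.Results.MP_c8786f_co.CoveredByBalls

variable {V E : Type}

/-- The edges, apart from loops, with both ends in `A`. -/
def spanned [DecidableEq V] [Fintype E] (src dst : E → V) (A : Finset V) : Finset E :=
  Finset.univ.filter (fun e => src e ≠ dst e ∧ src e ∈ A ∧ dst e ∈ A)

/-- **Theorem.** Few circuits outside some balls. -/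
theorem result :
    ∀ (V E ι : Type) [Fintype V] [DecidableEq V] [Fintype E] [DecidableEq E] [Fintype ι]
      (src dst : E → V) (c : ι → V) (r : ι → ℕ) (b : ℕ),
      ∑ i, (2 ^ (r i + 1) - 1) ≤ 31 →
      Fintype.card ι + 3 * ∑ i, (2 ^ (r i + 1) - 1) + 2 * b ≤ 127 →
      (∀ A : Finset V, A.Nonempty → (∀ x ∈ A, ∀ i, ¬ WithinDistance src dst (r i) (c i) x) →
        (spanned src dst A).card + 1 ≤ A.card + b) →
      (∀ Y : Finset V, (boundary src dst Y).card ≠ 1) →
      (∃ f : E → ℤ, IsFlow src dst f ∧ ∀ e, 1 ≤ |f e| ∧ |f e| ≤ 4) ∧
      ∀ q : ℕ, 5 ≤ q → 0 < bondCharPoly src dst q := by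
  intro V E ι _ _ _ _ _ src dst c r b h31 h127 hA hb
  have hcl : Pool.T9h45.BC.ClR r b src dst := by
    refine ⟨c, fun A hne hx => hA A hne fun x hxA i h => hx x hxA i ?_⟩
    obtain ⟨n, p, hn, h0, h1, h2⟩ := h
    have h3 := near_of src dst p n h2
    rw [h0, h1] at h3
    exact near_mono h3 hn
  have hfl := Pool.T9h45.BC.flow_of_ClR Pool.Agent.Y335.FL.contract_all r b h31 h127
    src dst hcl (fun Y _ => by rw [Finset.sdiff_empty]; exact hb Y)
  obtain ⟨F, hF, hF0⟩ := int_flow src dst (nzf src dst hfl)
  have hF1 := (isFlow_iff src dst F).mpr hF0
  exact ⟨⟨F, hF1, hF⟩, fun q hq => charPoly_pos src dst F hF1 hF q hq⟩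

/-- One ball of radius four. -/
theorem oneBall (V E : Type) [Fintype V] [DecidableEq V] [Fintype E] [DecidableEq E]
    (src dst : E → V) (c : V)
    (h : ∀ A : Finset V, A.Nonempty → (∀ x ∈ A, ¬ WithinDistance src dst 4 c x) →
      (spanned src dst A).card ≤ A.card + 15)
    (hb : ∀ Y : Finset V, (boundary src dst Y).card ≠ 1) :
    ∃ f : E → ℤ, IsFlow src dst f ∧ ∀ e, 1 ≤ |f e| ∧ |f e| ≤ 4 :=
  (result V E Unit src dst (fun _ => c) (fun _ => 4) 16 (by simp) (by simp)
    (fun A hA hx => by
      have := h A hA fun x hxA => hx x hxA ()
      omega) hb).1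

/-- The closed neighbourhood of at most ten vertices. -/
theorem neighbourhood (V E : Type) [Fintype V] [DecidableEq V] [Fintype E] [DecidableEq E]
    (src dst : E → V) (D : Finset V) (hD : D.card ≤ 10)
    (h : ∀ A : Finset V, A.Nonempty → (∀ x ∈ A, ∀ y ∈ D, ¬ WithinDistance src dst 1 y x) →
      (spanned src dst A).card ≤ A.card + 12)
    (hb : ∀ Y : Finset V, (boundary src dst Y).card ≠ 1) :
    ∃ f : E → ℤ, IsFlow src dst f ∧ ∀ e, 1 ≤ |f e| ∧ |f e| ≤ 4 :=
  (result V E D src dst (fun y => y) (fun _ => 1) 13 (by simp; omega) (by simp; omega)
    (fun A hA hx => by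
      have := h A hA fun x hxA y hy => hx x hxA ⟨y, hy⟩
      omega) hb).1

end Pool.Agent.Results.MP_c8786f_co.BallsAndCircuits
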