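import Pool.Agent.T9h45.IT.Fam
import Pool.Agent.Results.MP_c8786f_co.ElevenNewEdges

set_option autoImplicit false

/-!
# Nowhere-zero 5-flows in graphs without an induced minor isomorphic to a cubic tree (MP_c8786f_co)

Let `T` be the tree with `94` vertices and `48` leaves in which the centre has three neighbours, all
leaves have distance five from the centre, and the other vertices have degree three.  Every
bridgeless multigraph `G` which does not contain `T` as an induced minor has a nowhere-zero 5-flow,
and the characteristic polynomial of its bond matroid is positive at all integers `q ≥ 5`.  (`T` is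
an induced minor of `G` if there are disjoint connected sets of vertices of `G`, one for each vertex
of `T`, such that two of them are joined by an edge of `G` if and only if the corresponding vertices
of `T` are adjacent.)  The degrees, the connectivity, the treewidth, the order and the number of
circuits are arbitrary; all complete graphs belong to the class.  It is closed under contractions
but not under the deletion of edges.

More precisely, one may choose cycles (supports of flows with values in `{0, 1, -1}`) `C_1, C_2, ...`,
each with at most eleven edges outside the union of the earlier ones, and only the induced minors are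
needed whose sets of vertices are not separated by edges of the cycles and have at least three
boundary edges.

Special cases (`families`): all bridgeless graphs which do not have `s` pairwise disjoint connected
sets of vertices, each with `k` vertices at least, without edges between different sets, for
`(s, k) = (27, 3), (12, 7), (6, 15), (3, 31)`.  For example all bridgeless graphs without an induced
matching of 27 edges.  (The tree `T` also has 63 independent vertices; this case is known from the
starting file `MP_974d84_co.IndependenceNumber`.)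

Proof.  The class is closed under contractions.  Let `G` be a counterexample with as few edges as
possible.  Circuits with at most eleven edges can be contracted (starting library `Y335/FL`), and so
can one of two edges which form a cut; hence `G` has girth at least twelve and all degrees are at
least three (apart from isolated vertices).  Paths from a vertex `x` are continued by two new
neighbours of their ends, up to length five (`H173FL/Tree`).  The vertices which are reached in this
way induce a tree: an edge between two vertices at distances `i, j ≤ 5` from `x` which are not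
neighbours in the tree would give a circuit with at most `i + j + 1 ≤ 11` edges.
-/

namespace Pool.Agent.Results.MP_c8786f_co.ExcludedInducedTree

open Pool.Agent.TH497.PW Pool.Agent.Results.MP_c8786f_co.ElevenNewEdges

variable {V E : Type}

/-- The names of the vertices of `T`: words with at most five letters (`false` as the first
component; the empty word is the centre), and words with at most four letters (`true` as the first
component; the empty word is the third neighbour of the centre). -/
def IsNode (t : Bool × List Bool) : Prop := t.2.length ≤ if t.1 then 4 else 5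

/-- The adjacent vertices of `T`: the centre `(false, [])` and its neighbour `(true, [])`, and
`(b, w)` and `(b, c :: w)`. -/
inductive TreeEdge : Bool × List Bool → Bool × List Bool → Prop
  | root : TreeEdge (false, []) (true, [])
  | child (b c : Bool) (w : List Bool) (h : IsNode (b, c :: w)) : TreeEdge (b, w) (b, c :: w)

/-- The tree `T` is an induced minor of the graph: some vertices are labelled by vertices of `T` such
that

* the vertices with the same label `t` span a connected subgraph (for every set `X` of vertices
  which contains some but not all of them, an edge with both ends among them has exactly one end in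
  `X`), and at least three edges have exactly one end among them;
* for adjacent vertices `t`, `t'` of `T` some edge joins a vertex with the label `t` to a vertex
  with the label `t'`;
* if an edge joins a vertex with the label `t` to a vertex with the label `t'` then `t` and `t'`
  are equal or adjacent in `T`;

and the ends of the edges in `F` have the same label or are both not labelled. -/
def HasInducedTreeMinor [Fintype E] (src dst : E → V) (F : Finset E) : Prop :=
  ∃ β : V → Option (Bool × List Bool),
    (∀ v t, β v = some t → IsNode t) ∧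
    (∀ t, IsNode t → ∀ X : Set V, (∃ v ∈ X, β v = some t) → (∃ v ∉ X, β v = some t) →
      ∃ e, β (src e) = some t ∧ β (dst e) = some t ∧ ¬ (src e ∈ X ↔ dst e ∈ X)) ∧
    (∀ t, IsNode t →
      3 ≤ (Finset.univ.filter (fun e => ¬ (β (src e) = some t ↔ β (dst e) = some t))).card) ∧
    (∀ t t', TreeEdge t t' → ∃ e, (β (src e) = some t ∧ β (dst e) = some t') ∨
      (β (dst e) = some t ∧ β (src e) = some t')) ∧
    (∀ e t t', β (src e) = some t → β (dst e) = some t' →
      t = t' ∨ TreeEdge t t' ∨ TreeEdge t' t) ∧
    ∀ e ∈ F, β (src e) = β (dst e)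

/-- The vertices in `U` span a connected subgraph. -/
def IsConnectedSet (src dst : E → V) (U : Finset V) : Prop :=
  ∀ X : Finset V, (∃ v ∈ U, v ∈ X) → (∃ v ∈ U, v ∉ X) →
    ∃ e, src e ∈ U ∧ dst e ∈ U ∧ ¬ (src e ∈ X ↔ dst e ∈ X)

/-- There are `s` pairwise disjoint connected sets with at least `k` vertices each, without edges
between different sets. -/
def HasSeparatedSets (src dst : E → V) (s k : ℕ) : Prop :=
  ∃ U : Fin s → Finset V, (∀ i, k ≤ (U i).card) ∧ (∀ i, IsConnectedSet src dst (U i)) ∧
    (∀ i j, i ≠ j → Disjoint (U i) (U j)) ∧ ∀ e i j, src e ∈ U i → dst e ∈ U j → i = j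

theorem edge_iff (t t' : Bool × List Bool) : TreeEdge t t' ↔ Pool.T9h45.IT.TE t t' := by
  constructor
  · intro h
    cases h with
    | root => exact Pool.T9h45.IT.TE.root
    | child b c w hw => exact Pool.T9h45.IT.TE.child b c w hw
  · intro h
    cases h with
    | root => exact TreeEdge.root
    | child b c w hw => exact TreeEdge.child b c w hw

theorem model_of [Fintype E] (src dst : E → V) (F : Finset E)
    {β : V → Option (Bool × List Bool)} (h : Pool.T9h45.IT.Mod src dst F β) :
    HasInducedTreeMinor src dst F := by
  refine ⟨β, h.addr, ?_, h.bdry, ?_, ?_, h.con⟩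
  · intro t ht X hv hv'
    obtain ⟨v, hvX, hvt⟩ := hv
    obtain ⟨v', hvX', hvt'⟩ := hv'
    exact h.conn t ht (fun v => v ∈ X) ⟨v, hvX, hvt⟩ ⟨v', hvX', hvt'⟩
  · intro t t' htt
    exact h.join t t' ((edge_iff t t').1 htt)
  · intro e t t' h1 h2
    rcases h.ind e t t' h1 h2 with h3 | h3 | h3
    · exact Or.inl h3
    · exact Or.inr (Or.inl ((edge_iff _ _).2 h3))
    · exact Or.inr (Or.inr ((edge_iff _ _).2 h3))

/-- the flow -/
theorem main [Fintype V] [DecidableEq V] [Fintype E] [DecidableEq E] (src dst : E → V)
    (m : ℕ) (C : Fin m → Finset E)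
    (hb : ∀ Y : Finset V, Disjoint (boundary src dst Y) (Finset.univ.biUnion C) →
      (boundary src dst Y).card ≠ 1)
    (hC : ∀ i, ∃ z : E → ℤ, IsFlow src dst z ∧ (∀ e, z e = 0 ∨ z e = 1 ∨ z e = -1) ∧
      ∀ e, z e ≠ 0 ↔ e ∈ C i)
    (hnew : ∀ i, (C i \ (Finset.univ.filter (fun j => j < i)).biUnion C).card ≤ 11)
    (h : ¬ ∃ β, Pool.T9h45.IT.Mod src dst (Finset.univ.biUnion C) β) :
    (∃ f : E → ℤ, IsFlow src dst f ∧ ∀ e, 1 ≤ |f e| ∧ |f e| ≤ 4) ∧
      ∀ q : ℕ, 5 ≤ q → 0 < bondCharPoly src dst q := by
  have h3 := Pool.T9h45.IT.flow_free Pool.Agent.Y335.FL.quot' Pool.Agent.Y335.FL.contract_all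
    src dst (Finset.univ.biUnion C) h (fun Y hY => by rw [Finset.sdiff_empty]; exact hb Y hY)
  have hfl := Pool.Agent.Y335.FL.lift_all V E src dst m C (fun i => mod5 src dst (C i) (hC i)) hnew h3
  obtain ⟨F, hF, hF0⟩ := int_flow src dst (nzf src dst hfl)
  have hF1 := (isFlow_iff src dst F).mpr hF0
  exact ⟨⟨F, hF1, hF⟩, fun q hq => charPoly_pos src dst F hF1 hF q hq⟩

/-- (1) no induced minor isomorphic to the tree -/
theorem tree :
    ∀ (V E : Type) [Fintype V] [DecidableEq V] [Fintype E] [DecidableEq E] (src dst : E → V)
      (m : ℕ) (C : Fin m → Finset E),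
      (∀ i, ∃ z : E → ℤ, IsFlow src dst z ∧ (∀ e, z e = 0 ∨ z e = 1 ∨ z e = -1) ∧
        ∀ e, z e ≠ 0 ↔ e ∈ C i) →
      (∀ i, (C i \ (Finset.univ.filter (fun j => j < i)).biUnion C).card ≤ 11) →
      (∀ Y : Finset V, Disjoint (boundary src dst Y) (Finset.univ.biUnion C) →
        (boundary src dst Y).card ≠ 1) →
      ¬ HasInducedTreeMinor src dst (Finset.univ.biUnion C) →
      (∃ f : E → ℤ, IsFlow src dst f ∧ ∀ e, 1 ≤ |f e| ∧ |f e| ≤ 4) ∧
      ∀ q : ℕ, 5 ≤ q → 0 < bondCharPoly src dst q := by
  intro V E _ _ _ _ src dst m C hC hnew hb h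
  exact main src dst m C hb hC hnew (fun ⟨β, hβ⟩ => h (model_of src dst _ hβ))

/-- (2) separated connected sets -/
theorem families :
    ∀ (V E : Type) [Fintype V] [DecidableEq V] [Fintype E] [DecidableEq E] (src dst : E → V),
      (∀ Y : Finset V, (boundary src dst Y).card ≠ 1) →
      (¬ HasSeparatedSets src dst 27 3 ∨ ¬ HasSeparatedSets src dst 12 7 ∨
        ¬ HasSeparatedSets src dst 6 15 ∨ ¬ HasSeparatedSets src dst 3 31) →
      (∃ f : E → ℤ, IsFlow src dst f ∧ ∀ e, 1 ≤ |f e| ∧ |f e| ≤ 4) ∧
      ∀ q : ℕ, 5 ≤ q → 0 < bondCharPoly src dst q := by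
  intro V E _ _ _ _ src dst hb h
  refine main src dst 0 (fun _ => ∅) (fun Y _ => hb Y) (fun i => i.elim0) (fun i => i.elim0) ?_
  rintro ⟨β, hβ⟩
  obtain ⟨-, h2, h3, h4, h5⟩ := hβ.five
  rcases h with h | h | h | h
  · exact h h2
  · exact h h3
  · exact h h4
  · exact h h5

/-- A special case of (2): no induced matching of 27 edges. -/
theorem inducedMatching (V E : Type) [Fintype V] [DecidableEq V] [Fintype E] [DecidableEq E]
    (src dst : E → V) (hb : ∀ Y : Finset V, (boundary src dst Y).card ≠ 1)
    (h : ∀ M : Fin 27 → E, (∀ i, src (M i) ≠ dst (M i)) → ∃ i j, i ≠ j ∧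
      ∃ a b, (a = src (M i) ∨ a = dst (M i)) ∧ (b = src (M j) ∨ b = dst (M j)) ∧
        (a = b ∨ ∃ e, (src e = a ∧ dst e = b) ∨ (src e = b ∧ dst e = a))) :
    (∃ f : E → ℤ, IsFlow src dst f ∧ ∀ e, 1 ≤ |f e| ∧ |f e| ≤ 4) ∧
      ∀ q : ℕ, 5 ≤ q → 0 < bondCharPoly src dst q := by
  refine families V E src dst hb (Or.inl ?_)
  rintro ⟨U, h1, h2, h3, h4⟩
  have hex : ∀ i, ∃ e, src e ∈ U i ∧ dst e ∈ U i ∧ src e ≠ dst e := by
    intro i
    obtain ⟨a, ha, b, hb', hab⟩ := Finset.one_lt_card.1 (show 1 < (U i).card by
      have := h1 i
      omega)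
    obtain ⟨e, he1, he2, he3⟩ := h2 i {a} ⟨a, ha, Finset.mem_singleton_self a⟩
      ⟨b, hb', fun h => hab (Finset.mem_singleton.1 h).symm⟩
    exact ⟨e, he1, he2, fun h => he3 (by rw [h])⟩
  choose M hM1 hM2 hM3 using hex
  obtain ⟨i, j, hij, a, b, ha, hb', hab⟩ := h M hM3
  have ha' : a ∈ U i := by
    rcases ha with ha | ha
    · rw [ha]; exact hM1 i
    · rw [ha]; exact hM2 i
  have hb'' : b ∈ U j := by
    rcases hb' with hb' | hb'
    · rw [hb']; exact hM1 j
    · rw [hb']; exact hM2 j
  rcases hab with hab | ⟨e, ⟨e1, e2⟩ | ⟨e1, e2⟩⟩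
  · rw [hab] at ha'
    exact (Finset.disjoint_left.1 (h3 i j hij) ha') hb''
  · exact hij (h4 e i j (by rw [e1]; exact ha') (by rw [e2]; exact hb''))
  · exact hij (h4 e j i (by rw [e1]; exact hb'') (by rw [e2]; exact ha')).symm

/-- **Graphs without an induced minor isomorphic to the tree `T` have nowhere-zero 5-flows.** -/
theorem result :
    (∀ (V E : Type) [Fintype V] [DecidableEq V] [Fintype E] [DecidableEq E] (src dst : E → V)
      (m : ℕ) (C : Fin m → Finset E),
      (∀ i, ∃ z : E → ℤ, IsFlow src dst z ∧ (∀ e, z e = 0 ∨ z e = 1 ∨ z e = -1) ∧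
        ∀ e, z e ≠ 0 ↔ e ∈ C i) →
      (∀ i, (C i \ (Finset.univ.filter (fun j => j < i)).biUnion C).card ≤ 11) →
      (∀ Y : Finset V, Disjoint (boundary src dst Y) (Finset.univ.biUnion C) →
        (boundary src dst Y).card ≠ 1) →
      ¬ HasInducedTreeMinor src dst (Finset.univ.biUnion C) →
      (∃ f : E → ℤ, IsFlow src dst f ∧ ∀ e, 1 ≤ |f e| ∧ |f e| ≤ 4) ∧
      ∀ q : ℕ, 5 ≤ q → 0 < bondCharPoly src dst q) ∧
    (∀ (V E : Type) [Fintype V] [DecidableEq V] [Fintype E] [DecidableEq E] (src dst : E → V),
      (∀ Y : Finset V, (boundary src dst Y).card ≠ 1) →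
      (¬ HasSeparatedSets src dst 27 3 ∨ ¬ HasSeparatedSets src dst 12 7 ∨
        ¬ HasSeparatedSets src dst 6 15 ∨ ¬ HasSeparatedSets src dst 3 31) →
      (∃ f : E → ℤ, IsFlow src dst f ∧ ∀ e, 1 ≤ |f e| ∧ |f e| ≤ 4) ∧
      ∀ q : ℕ, 5 ≤ q → 0 < bondCharPoly src dst q) :=
  ⟨tree, families⟩

end Pool.Agent.Results.MP_c8786f_co.ExcludedInducedTree
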