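import Pool.Agent.T9h45.SW.Main
import Pool.Agent.Results.MP_c8786f_co.CoveredByBalls

set_option autoImplicit false

/-!
# Nowhere-zero 5-flows in graphs of small sim-width (MP_c8786f_co)

A branch decomposition of (the vertex set of) a graph `G` is a binary tree whose leaves are the
vertices of `G`. Its sim-width is the largest size of an induced matching of `G` all of whose edges
join vertices below some node of the tree to other vertices; the sim-width of `G` is the minimum over
all decompositions, and the linear sim-width the minimum over all caterpillars, that is over linear
orders of the vertices.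

Let `G` be a bridgeless multigraph of sim-width at most five, or of linear sim-width at most six.
Then `G` has a nowhere-zero 5-flow, and the characteristic polynomial of its bond matroid is
positive at all integers `q ≥ 5`.

Sim-width is at most the (maximum induced matching) mim-width and at most the tree-independence
number, and mim-width is at most the clique-width. Chordal graphs and co-comparability graphs have
sim-width one (their mim-width is unbounded); interval, permutation, circular arc and circular
permutation graphs, leaf powers, and, for `k ≤ 5`, Dilworth-k graphs, k-trapezoid graphs and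
complements of k-degenerate graphs have mim-width at most five. The cliques, the order, the
degrees, the treewidth and the connectivity of the graphs in the theorem are not bounded.

Proof.  The class is closed under contractions: an induced matching across a cut of `G / e` can be
lifted to one of `G` across the same cut (if the edge `e = uv` crosses the cut and the matching uses an
edge at the new vertex which is an edge at `v` in `G`, it is replaced by `uv`).  (The class is not
closed under deletions of edges.)  Let `G` be a counterexample with as few edges as possible. Circuits
with at most eleven edges can be contracted (library `Y335/FL`), and so can one of two edges which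
form a cut; hence `G` has girth at least twelve, all degrees are at least three and there are at least
`126` vertices which are not isolated.  Some node has `39, ..., 76` of them below it; let `Y` be this
set.  Every set of `25, ..., 76` vertices has at least `15` outer neighbours, by the Moore bound for
irregular graphs (Alon, Hoory and Linial).  Hence every vertex cover of the edges between `Y` and the
rest has at least `15` elements: otherwise the vertices of `Y` outside the cover have all their outer
neighbours in the cover.  By Kőnig's theorem there is a matching with `15` edges across the cut.  The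
graph which arises from its vertices when the edges of the matching are contracted has girth at least
six, since `12 / 2 = 6`, and each graph with `15` vertices and girth at least six has six independent
vertices: take a vertex with at most two neighbours as long as there is one; if there is none, take a
vertex and all those at distance two.  These are an induced matching with six edges.  For linear
orders one takes a cut with `50` vertices, for which there is a matching with `18` edges, and an
induced matching with seven edges.
-/

namespace Pool.Agent.Results.MP_c8786f_co.SimWidth

open Pool.Agent.TH497.PW Pool.Agent.Results.MP_c8786f_co.CoveredByBalls Pool.T9h45.SW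

variable {V E : Type}

/-- The vertices `x` and `y` are different and joined by an edge. -/
def Adjacent (src dst : E → V) (x y : V) : Prop :=
  x ≠ y ∧ ∃ e, (src e = x ∧ dst e = y) ∨ (src e = y ∧ dst e = x)

/-- There is an induced matching with the `m` edges `x i, y i`, where `x i` is in `Y` and `y i` is
not. -/
def HasInducedMatching (src dst : E → V) (m : ℕ) (Y : Finset V) : Prop :=
  ∃ x y : Fin m → V, (∀ i, x i ∈ Y ∧ y i ∉ Y ∧ Adjacent src dst (x i) (y i)) ∧
    ∀ i j, i ≠ j → ¬ Adjacent src dst (x i) (x j) ∧ ¬ Adjacent src dst (x i) (y j) ∧
      ¬ Adjacent src dst (y i) (y j)

/-- The tree `T` (with different leaves labelled by different vertices) has sim-width at most `k`: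
for the set `Y` of the labels below any node there is no induced matching with `k + 1` edges between
`Y` and the other vertices. -/
def SimWidthLE [DecidableEq V] (src dst : E → V) (k : ℕ) : LeafTree V → Prop
  | .leaf v => ¬ HasInducedMatching src dst (k + 1) {v}
  | .node l r => Disjoint l.labels r.labels ∧
      ¬ HasInducedMatching src dst (k + 1) (l.labels ∪ r.labels) ∧
      SimWidthLE src dst k l ∧ SimWidthLE src dst k r

theorem sets_of [DecidableEq V] {src dst : E → V} {k : ℕ} : ∀ {T : LeafTree V},
    SimWidthLE src dst k T →
    ∀ Y ∈ T.sets, ¬ Mt (Pool.Agent.TH676.Z.Adj src dst) (k + 1) Y := by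
  intro T
  induction T with
  | leaf v =>
    intro h Y hY hM
    have hY' : Y = {v} := hY
    subst hY'
    obtain ⟨x, y, h1, h2⟩ := hM
    exact h ⟨x, y, fun i => ⟨by simpa using (h1 i).1, by simpa using (h1 i).2.1, (h1 i).2.2⟩, h2⟩
  | node l r ihl ihr =>
    intro h Y hY hM
    obtain ⟨-, h1, h2, h3⟩ := h
    rcases hY with hY | hY | hY
    · have hY' : Y = ((l.labels ∪ r.labels : Finset V) : Set V) := hY
      subst hY'
      obtain ⟨x, y, h4, h5⟩ := hM
      exact h1 ⟨x, y, fun i => ⟨Finset.mem_coe.1 (h4 i).1,
        fun h => (h4 i).2.1 (Finset.mem_coe.2 h), (h4 i).2.2⟩, h5⟩
    · exact ihl h2 Y hY hM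
    · exact ihr h3 Y hY hM

/-- **Theorem.** Let `G` be a multigraph without a cut of exactly one edge. If `G` has sim-width at
most five, or linear sim-width at most six, then it has a nowhere-zero 5-flow, and the characteristic
polynomial of its bond matroid is positive at all integers `q ≥ 5`. -/
theorem result :
    ∀ (V E : Type) [Fintype V] [DecidableEq V] [Fintype E] [DecidableEq E] (src dst : E → V),
      ((∃ T : LeafTree V, T.labels = Finset.univ ∧ SimWidthLE src dst 5 T) ∨
        ∃ rk : V → ℕ, Function.Injective rk ∧
          ∀ t, ¬ HasInducedMatching src dst 7 (Finset.univ.filter fun v => rk v < t)) →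
      (∀ Y : Finset V, (boundary src dst Y).card ≠ 1) →
      (∃ f : E → ℤ, IsFlow src dst f ∧ ∀ e, 1 ≤ |f e| ∧ |f e| ≤ 4) ∧
      ∀ q : ℕ, 5 ≤ q → 0 < bondCharPoly src dst q := by
  intro V E _ _ _ _ src dst hcl hb
  have hbr : Pool.Agent.TH676.Z.Br src dst ∅ ∅ := fun Y _ => by
    rw [Finset.sdiff_empty]; exact hb Y
  have hfl : Pool.Agent.TH676.Z.FlowOn src dst ∅ ∅ := by
    rcases hcl with ⟨T, hT, hS⟩ | ⟨rk, hrk, hS⟩
    · exact flow_tree Pool.Agent.Y335.FL.contract_all T hT (sets_of hS) hbr
    · refine flow_linear Pool.Agent.Y335.FL.contract_all rk hrk ?_ hbr
      rintro Y ⟨t, rfl⟩ ⟨x, y, h1, h2⟩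
      refine hS t ⟨x, y, fun i => ⟨?_, ?_, (h1 i).2.2⟩, h2⟩
      · exact Finset.mem_filter.2 ⟨Finset.mem_univ _, (h1 i).1⟩
      · exact fun h => (h1 i).2.1 (Finset.mem_filter.1 h).2
  obtain ⟨F, hF, hF0⟩ := int_flow src dst (nzf src dst hfl)
  have hF1 := (isFlow_iff src dst F).mpr hF0
  exact ⟨⟨F, hF1, hF⟩, fun q hq => charPoly_pos src dst F hF1 hF q hq⟩

end Pool.Agent.Results.MP_c8786f_co.SimWidth
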