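import Pool.Agent.T9h45.VT.Circ

set_option autoImplicit false

/-!
# Symmetric graphs with short circuits have nowhere-zero 5-flows (MP_c8786f_co)

Multigraphs are given by maps `src dst : E → V`; loops and parallel edges are allowed.  A cycle is
the support of a flow with values in `{0, 1, -1}`, and a chain of cycles consists of cycles with at
most eleven edges outside the union of the earlier ones.

(1) Let every vertex `x` of the connected multigraph `G` lie in a connected set of edges of the
union of a chain of cycles which contains at least four vertices of the orbit of `x` under the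
automorphism group of `G`.  Then `G` has a nowhere-zero 5-flow.

(2) In particular this is so if every vertex `x` lies on a circuit with at most eleven vertices, at
least four of which are images of `x` under automorphisms; and

(3) every connected vertex-transitive multigraph which contains a circuit with at least four and at
most eleven vertices has a nowhere-zero 5-flow, as has every connected vertex-transitive simple
graph of degree at least four (the latter is known).  Of the connected vertex-transitive simple
graphs of degree at least three, only the cubic ones in which all circuits have three or at least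
twelve vertices remain.

In all cases the characteristic polynomial of the bond matroid is positive at all integers
`q ≥ 5`.

Proof.  The union `F` of all chains of cycles is a chain of cycles, and it is invariant under all
automorphisms.  Among the vertex sets (not empty, not all) whose boundary avoids `F` let `X` have
the smallest boundary and, among these, the fewest vertices.  By submodularity an automorphism
which takes a vertex of `X` to a vertex of `X` takes `X` to itself, whence the vertices of `X` in one
orbit are incident with equally many edges of the boundary.  So the boundary has at least four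
edges if `X` contains four vertices of each orbit it meets, and `F` may be contracted
(`ElevenNewEdges`).
-/

namespace Pool.Agent.Results.MP_c8786f_co.VertexTransitive

open Pool.Agent.Results.MP_c8786f_co.ElevenNewEdges

variable {V E : Type}

/-- The permutations `σ` of the vertices and `τ` of the edges are an automorphism. -/
def IsAutomorphism (src dst : E → V) (σ : Equiv.Perm V) (τ : Equiv.Perm E) : Prop :=
  ∀ e, (src (τ e) = σ (src e) ∧ dst (τ e) = σ (dst e)) ∨
    (src (τ e) = σ (dst e) ∧ dst (τ e) = σ (src e))

/-- Some automorphism takes `x` to `y`. -/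
def SameOrbit (src dst : E → V) (x y : V) : Prop :=
  ∃ σ τ, IsAutomorphism src dst σ τ ∧ σ x = y

/-- Every nonempty proper set of vertices has an edge in its boundary. -/
def IsConnected [Fintype V] [DecidableEq V] [Fintype E] (src dst : E → V) : Prop :=
  ∀ X : Finset V, X.Nonempty → X ≠ Finset.univ → (boundary src dst X).Nonempty

/-- `C` is the support of a flow with values in `{0, 1, -1}`. -/
def IsCycle [DecidableEq V] [Fintype E] (src dst : E → V) (C : Finset E) : Prop :=
  ∃ z : E → ℤ, IsFlow src dst z ∧ (∀ e, z e = 0 ∨ z e = 1 ∨ z e = -1) ∧ ∀ e, z e ≠ 0 ↔ e ∈ C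

/-- `F` is the union of cycles each of which has at most eleven edges outside the union of the
earlier ones. -/
def IsChain [DecidableEq V] [Fintype E] [DecidableEq E] (src dst : E → V) (F : Finset E) : Prop :=
  ∃ (m : ℕ) (C : Fin m → Finset E), (∀ i, IsCycle src dst (C i)) ∧
    (∀ i, (C i \ (Finset.univ.filter (fun j => j < i)).biUnion C).card ≤ 11) ∧
    F = Finset.univ.biUnion C

/-- The vertices `p 0, ..., p (n - 1)` and the edges `e 0, ..., e (n - 1)` form a circuit. -/
def IsCircuit (src dst : E → V) (n : ℕ) (p : ℕ → V) (e : ℕ → E) : Prop :=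
  p n = p 0 ∧ (∀ i j, i < n → j < n → p i = p j → i = j) ∧
    ∀ i, i < n → (src (e i) = p i ∧ dst (e i) = p (i + 1)) ∨
      (src (e i) = p (i + 1) ∧ dst (e i) = p i)

/-- There are no loops and no parallel edges. -/
def IsSimple (src dst : E → V) : Prop :=
  (∀ e, src e ≠ dst e) ∧
    ∀ e e', (src e = src e' ∧ dst e = dst e') ∨ (src e = dst e' ∧ dst e = src e') → e = e'

/-- A nowhere-zero 5-flow, and the positivity of the characteristic polynomial of the bond matroid
at the integers `q ≥ 5`. -/
def HasFiveFlow [Fintype V] [DecidableEq V] [Fintype E] [DecidableEq E] (src dst : E → V) : Prop :=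
  (∃ f : E → ℤ, IsFlow src dst f ∧ ∀ e, 1 ≤ |f e| ∧ |f e| ≤ 4) ∧
    ∀ q : ℕ, 5 ≤ q → 0 < bondCharPoly src dst q

theorem pos [Fintype V] [DecidableEq V] [Fintype E] [DecidableEq E] (src dst : E → V)
    (h : ∃ f : E → ℤ, IsFlow src dst f ∧ ∀ e, 1 ≤ |f e| ∧ |f e| ≤ 4) : HasFiveFlow src dst := by
  obtain ⟨f, h1, h2⟩ := h
  exact ⟨⟨f, h1, h2⟩, fun q hq => charPoly_pos src dst f h1 h2 q hq⟩

/-- (1) chains -/
theorem chains :
    ∀ (V E : Type) [Fintype V] [DecidableEq V] [Fintype E] [DecidableEq E] (src dst : E → V),
      IsConnected src dst →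
      (∀ x : V, ∃ F, IsChain src dst F ∧ ∀ X : Finset V, x ∈ X →
        Disjoint (boundary src dst X) F →
        ∃ Y ⊆ X, 4 ≤ Y.card ∧ ∀ y ∈ Y, SameOrbit src dst x y) →
      HasFiveFlow src dst := by
  intro V E _ _ _ _ src dst hc hx
  apply pos
  obtain ⟨F, hF, hcut⟩ := Pool.T9h45.VT.cuts (src := src) (dst := dst) hc (by
    intro x
    obtain ⟨F, ⟨m, C, h1, h2, h3⟩, h4⟩ := hx x
    refine ⟨F, ?_, h4⟩
    rw [h3]
    exact Pool.T9h45.VT.Ch.of_family src dst m C h1 h2)
  obtain ⟨m, C, h1, h2, h3⟩ := Pool.T9h45.VT.Ch.family src dst hF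
  refine meetsThreeCuts V E src dst m C h1 h2 ?_
  intro X hX1 hX2 hX
  rw [h3] at hX
  exact hcut X hX1 hX2 hX

/-- (2) circuits with four vertices of the orbit -/
theorem circuits :
    ∀ (V E : Type) [Fintype V] [DecidableEq V] [Fintype E] [DecidableEq E] (src dst : E → V),
      IsConnected src dst →
      (∀ x : V, ∃ (n : ℕ) (p : ℕ → V) (e : ℕ → E), n ≤ 11 ∧ IsCircuit src dst n p e ∧ p 0 = x ∧
        ∃ I : Finset ℕ, 4 ≤ I.card ∧ ∀ i ∈ I, i < n ∧ SameOrbit src dst x (p i)) →
      HasFiveFlow src dst := by
  intro V E _ _ _ _ src dst hc hx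
  apply chains V E src dst hc
  intro x
  obtain ⟨n, p, e, hn, ⟨h0, hinj, he⟩, hpx, I, hI, hIx⟩ := hx x
  have hn4 : 4 ≤ n := by
    have h1 : I ⊆ Finset.range n := fun i hi => Finset.mem_range.2 (hIx i hi).1
    have h2 := Finset.card_le_card h1
    rw [Finset.card_range] at h2
    omega
  refine ⟨(Finset.range n).image e, ⟨1, fun _ => (Finset.range n).image e, fun _ =>
    Pool.T9h45.VT.cyc_circuit (by omega) p e h0 hinj he, fun _ => ?_, ?_⟩, ?_⟩
  · refine le_trans (Finset.card_le_card Finset.sdiff_subset) ?_
    refine le_trans Finset.card_image_le ?_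
    rw [Finset.card_range]
    exact hn
  · ext a
    rw [Finset.mem_biUnion]
    exact ⟨fun h => ⟨0, Finset.mem_univ _, h⟩, fun ⟨_, _, h⟩ => h⟩
  · intro X hxX hX
    refine ⟨I.image p, ?_, ?_, ?_⟩
    · intro y hy
      obtain ⟨i, hi, rfl⟩ := Finset.mem_image.1 hy
      exact Pool.T9h45.VT.circuit_sub p e he X (by rw [hpx]; exact hxX) hX i (hIx i hi).1.le
    · rw [Finset.card_image_of_injOn]
      · exact hI
      · intro i hi j hj h
        exact hinj i j (hIx i hi).1 (hIx j hj).1 h
    · intro y hy
      obtain ⟨i, hi, rfl⟩ := Finset.mem_image.1 hy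
      exact (hIx i hi).2

/-- (3) vertex-transitive graphs -/
theorem transitive :
    ∀ (V E : Type) [Fintype V] [DecidableEq V] [Fintype E] [DecidableEq E] (src dst : E → V),
      IsConnected src dst → (∀ x y, SameOrbit src dst x y) →
      ((IsSimple src dst ∧ ∃ x, 4 ≤ (Finset.univ.filter fun e => src e = x ∨ dst e = x).card) ∨
        ∃ (n : ℕ) (p : ℕ → V) (e : ℕ → E), 4 ≤ n ∧ n ≤ 11 ∧ IsCircuit src dst n p e) →
      HasFiveFlow src dst := by
  intro V E _ _ _ _ src dst hc hvt h
  rcases h with ⟨⟨hl, hp⟩, x, hx⟩ | ⟨n, p, e, hn4, hn, h0, hinj, he⟩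
  · apply pos
    refine meetsThreeCuts V E src dst 0 (fun _ => ∅) (fun i => i.elim0) (fun i => i.elim0) ?_
    intro X hX1 hX2 _
    exact Pool.T9h45.VT.cuts_simple hc hvt hl hp x hx X hX1 hX2
  · apply circuits V E src dst hc
    intro x
    obtain ⟨σ, τ, hστ, hx⟩ := hvt (p 0) x
    refine ⟨n, fun i => σ (p i), fun i => τ (e i), hn, ⟨congrArg σ h0, ?_, ?_⟩, hx,
      Finset.range n, by rw [Finset.card_range]; exact hn4, ?_⟩
    · intro i j hi hj hij
      exact hinj i j hi hj (σ.injective hij)
    · intro i hi
      rcases hστ (e i) with h1 | h1 <;> rcases he i hi with h2 | h2 <;>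
        rw [h1.1, h1.2, h2.1, h2.2]
      · exact Or.inl ⟨rfl, rfl⟩
      · exact Or.inr ⟨rfl, rfl⟩
      · exact Or.inr ⟨rfl, rfl⟩
      · exact Or.inl ⟨rfl, rfl⟩
    · intro i hi
      exact ⟨Finset.mem_range.1 hi, hvt _ _⟩

/-- **Symmetric graphs with short circuits have nowhere-zero 5-flows.** -/
theorem result :
    (∀ (V E : Type) [Fintype V] [DecidableEq V] [Fintype E] [DecidableEq E] (src dst : E → V),
      IsConnected src dst →
      (∀ x : V, ∃ F, IsChain src dst F ∧ ∀ X : Finset V, x ∈ X →
        Disjoint (boundary src dst X) F →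
        ∃ Y ⊆ X, 4 ≤ Y.card ∧ ∀ y ∈ Y, SameOrbit src dst x y) →
      HasFiveFlow src dst) ∧
    (∀ (V E : Type) [Fintype V] [DecidableEq V] [Fintype E] [DecidableEq E] (src dst : E → V),
      IsConnected src dst →
      (∀ x : V, ∃ (n : ℕ) (p : ℕ → V) (e : ℕ → E), n ≤ 11 ∧ IsCircuit src dst n p e ∧ p 0 = x ∧
        ∃ I : Finset ℕ, 4 ≤ I.card ∧ ∀ i ∈ I, i < n ∧ SameOrbit src dst x (p i)) →
      HasFiveFlow src dst) ∧
    (∀ (V E : Type) [Fintype V] [DecidableEq V] [Fintype E] [DecidableEq E] (src dst : E → V),
      IsConnected src dst → (∀ x y, SameOrbit src dst x y) →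
      ((IsSimple src dst ∧ ∃ x, 4 ≤ (Finset.univ.filter fun e => src e = x ∨ dst e = x).card) ∨
        ∃ (n : ℕ) (p : ℕ → V) (e : ℕ → E), 4 ≤ n ∧ n ≤ 11 ∧ IsCircuit src dst n p e) →
      HasFiveFlow src dst) :=
  ⟨chains, circuits, transitive⟩

end Pool.Agent.Results.MP_c8786f_co.VertexTransitive
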